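import Mathlib

/-!
# MP_f2da09_co: CZ-distance in proper vertex-minor-closed classes
Definitions.
-/

namespace Pool.Agent.H53.CZD

open Finset

/-! ## Graphs -/

/-- Local complementation at `v`: the edges between neighbours of `v` are complemented. -/
def lc {V : Type*} (G : SimpleGraph V) (v : V) : SimpleGraph V where
  Adj a b := a ≠ b ∧ ¬ (G.Adj a b ↔ (G.Adj v a ∧ G.Adj v b))
  symm := ⟨by
    intro a b h
    refine ⟨h.1.symm, ?_⟩
    have h2 := h.2
    rw [G.adj_comm b a, and_comm (a := G.Adj v b)]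
    exact h2⟩
  loopless := ⟨fun a h => h.1 rfl⟩

/-- Local equivalence: `LE G G'` if `G'` is obtained from `G` by local complementations. -/
inductive LE {V : Type*} (G : SimpleGraph V) : SimpleGraph V → Prop
  | refl : LE G G
  | step {G' : SimpleGraph V} (v : V) : LE G G' → LE G (lc G' v)

/-- A class of finite graphs (given as a property of graphs on `Fin n` for all `n`) that is closed
under isomorphism, local complementation and deletion of a vertex. -/
structure VMClosed (F : ∀ n : ℕ, SimpleGraph (Fin n) → Prop) : Prop where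
  iso : ∀ (n : ℕ) (G H : SimpleGraph (Fin n)), Nonempty (G ≃g H) → F n G → F n H
  lc : ∀ (n : ℕ) (G : SimpleGraph (Fin n)) (v : Fin n), F n G → F n (lc G v)
  del : ∀ (n : ℕ) (G : SimpleGraph (Fin (n + 1))) (v : Fin (n + 1)),
    F (n + 1) G → F n (G.comap v.succAbove)

/-! ## Circuits -/

/-- The gates: Hadamard, phase gate `diag(1,i)` and `CZ` on two different qubits. -/
inductive Gate (n : ℕ)
  | H (i : Fin n)
  | S (i : Fin n)
  | CZ (i j : Fin n) (h : i ≠ j)

/-- Amplitudes of an `n`-qubit state in the computational basis. -/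
abbrev State (n : ℕ) := (Fin n → Bool) → ℂ

/-- Action of a gate. -/
noncomputable def Gate.apply {n : ℕ} : Gate n → State n → State n
  | .H i, ψ => fun x => ((Real.sqrt 2 : ℝ) : ℂ)⁻¹ *
      (ψ (Function.update x i false) +
        (if x i = true then -1 else 1) * ψ (Function.update x i true))
  | .S i, ψ => fun x => (if x i = true then Complex.I else 1) * ψ x
  | .CZ i j _, ψ => fun x => (if x i = true ∧ x j = true then -1 else 1) * ψ x

/-- Run a circuit (first gate first). -/
noncomputable def run {n : ℕ} (l : List (Gate n)) (ψ : State n) : State n :=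
  l.foldl (fun φ g => g.apply φ) ψ

/-- The state with all qubits `0`. -/
noncomputable def zeroState (n : ℕ) : State n := fun x => if x = (fun _ => false) then 1 else 0

open Classical in
/-- The graph state: `2^(-n/2) * (-1)^(number of edges inside the support of x)`. -/
noncomputable def graphState {n : ℕ} (G : SimpleGraph (Fin n)) : State n := fun x =>
  (((Real.sqrt 2 : ℝ) : ℂ)⁻¹) ^ n *
    ∏ p : Fin n × Fin n,
      (if p.1 < p.2 ∧ G.Adj p.1 p.2 ∧ x p.1 = true ∧ x p.2 = true then (-1 : ℂ) else 1)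

/-- `l` prepares the graph state of `G` from the zero state up to a global phase. -/
def Prepares {n : ℕ} (l : List (Gate n)) (G : SimpleGraph (Fin n)) : Prop :=
  ∃ c : ℂ, ‖c‖ = 1 ∧ run l (zeroState n) = fun x => c * graphState G x

/-- Number of `CZ` gates of a gate (0 or 1). -/
def Gate.isCZ {n : ℕ} : Gate n → Bool
  | .CZ _ _ _ => true
  | _ => false

/-- Number of `CZ` gates of a circuit. -/
def czCount {n : ℕ} (l : List (Gate n)) : ℕ := l.countP Gate.isCZ

/-- The `CZ`-distance of a graph. -/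
noncomputable def cz {n : ℕ} (G : SimpleGraph (Fin n)) : ℕ :=
  sInf {k | ∃ l : List (Gate n), Prepares l G ∧ czCount l = k}

/-! ## Vectors over the field with two elements -/

variable {ι : Type*} [Fintype ι] [DecidableEq ι]

/-- Number of ordered pairs of `C` whose sum is in `S`. -/
def ecount (S C : Finset (ι → ZMod 2)) : ℕ := #{p ∈ C ×ˢ C | p.1 + p.2 ∈ S}

/-- Number of elements of `C` whose sum with `x` is in `S`. -/
def dg (S C : Finset (ι → ZMod 2)) (x : ι → ZMod 2) : ℕ := #{y ∈ C | x + y ∈ S}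

/-- Good continuations of the pair `x, x + h`. -/
def gd (S C : Finset (ι → ZMod 2)) (x h : ι → ZMod 2) : ℕ :=
  #{w ∈ C | w ≠ x + h ∧ x + w ∈ S ∧ (w + x + h ∈ S ∨ w + h ∈ C)}

/-- Good triples. -/
def good (S C : Finset (ι → ZMod 2)) : ℕ :=
  #{p ∈ C ×ˢ C ×ˢ C | p.1 + p.2.1 ∈ S ∧ p.1 + p.2.2 ∈ S ∧ p.2.1 ≠ p.2.2 ∧
    (p.2.1 + p.2.2 ∈ S ∨ p.1 + p.2.1 + p.2.2 ∈ C)}

/-- Later neighbours of `x` in the order given by `r`. -/
def later (S C : Finset (ι → ZMod 2)) (r : (ι → ZMod 2) → ℕ) (x : ι → ZMod 2) :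
    Finset (ι → ZMod 2) := {y ∈ C | x + y ∈ S ∧ r x < r y}

/-- Contraction of `h` (where `h t = 1`): the projection with kernel `{0, h}` that makes the
coordinate `t` vanish. -/
def contr (h : ι → ZMod 2) (t : ι) : (ι → ZMod 2) →ₗ[ZMod 2] (ι → ZMod 2) :=
  LinearMap.id + (LinearMap.proj t : (ι → ZMod 2) →ₗ[ZMod 2] ZMod 2).smulRight h

/-- The contracted configuration (without the zero vector). -/
def shrink (S : Finset (ι → ZMod 2)) (h : ι → ZMod 2) (t : ι) : Finset (ι → ZMod 2) :=
  (S.image (contr h t)).erase 0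

/-- `S` contains, modulo the span of some subset `D` of `S`, the vectors `a i`, `b j` and
`a i + b j` with `a`, `b` independent. -/
def Rich (S : Finset (ι → ZMod 2)) (q : ℕ) : Prop :=
  ∃ (D : Set (ι → ZMod 2)) (a b : Fin q → ι → ZMod 2) (z : Fin q → Fin q → ι → ZMod 2),
    D ⊆ ↑S ∧ (∀ i, a i ∈ S) ∧ (∀ j, b j ∈ S) ∧ (∀ i j, z i j ∈ S) ∧
    (∀ i j, z i j + a i + b j ∈ Submodule.span (ZMod 2) D) ∧
    ∀ x y : Fin q → ZMod 2,
      (∑ i, x i • a i) + (∑ j, y j • b j) ∈ Submodule.span (ZMod 2) D → x = 0 ∧ y = 0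

/-- The constant. -/
def R0 (q : ℕ) : ℕ := 2 ^ (7 * q ^ 2 + 2 * q + 4)

end Pool.Agent.H53.CZD
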