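import Pool.Agent.H53.CZ.Targets

namespace Pool.Agent.H53.CZD

open Finset

section
variable {V : Type}

theorem lc_adj (G : SimpleGraph V) (v a b : V) :
    (lc G v).Adj a b ↔ a ≠ b ∧ ¬ (G.Adj a b ↔ (G.Adj v a ∧ G.Adj v b)) := Iff.rfl

/-- The pivot. -/
def piv (G : SimpleGraph V) (x p : V) : SimpleGraph V := lc (lc (lc G x) p) x

theorem piv_xp (G : SimpleGraph V) {x p : V} (h : G.Adj x p) : (piv G x p).Adj x p := by
  have h2 := h.symm
  have h3 := h.ne
  have h4 := h.ne'
  simp [piv, lc_adj, h, h2, h3, h4]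

theorem piv_x (G : SimpleGraph V) {x p w : V} (h : G.Adj x p) (hx : w ≠ x) (hp : w ≠ p) :
    (piv G x p).Adj x w ↔ G.Adj p w := by
  have h2 := h.symm
  have h3 := h.ne
  have h4 := h.ne'
  have e1 : G.Adj w x ↔ G.Adj x w := G.adj_comm _ _
  have e2 : G.Adj w p ↔ G.Adj p w := G.adj_comm _ _
  by_cases hB : G.Adj x w <;> by_cases hD : G.Adj p w <;>
    simp [piv, lc_adj, h, h2, h3, h4, e1, e2, hB, hD, hx, hp, hx.symm, hp.symm]

theorem piv_p (G : SimpleGraph V) {x p w : V} (h : G.Adj x p) (hx : w ≠ x) (hp : w ≠ p) :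
    (piv G x p).Adj p w ↔ G.Adj x w := by
  have h2 := h.symm
  have h3 := h.ne
  have h4 := h.ne'
  have e1 : G.Adj w x ↔ G.Adj x w := G.adj_comm _ _
  have e2 : G.Adj w p ↔ G.Adj p w := G.adj_comm _ _
  by_cases hB : G.Adj x w <;> by_cases hD : G.Adj p w <;>
    simp [piv, lc_adj, h, h2, h3, h4, e1, e2, hB, hD, hx, hp, hx.symm, hp.symm]

theorem piv_uw (G : SimpleGraph V) {x p u w : V} (h : G.Adj x p) (hux : u ≠ x) (hup : u ≠ p)
    (hwx : w ≠ x) (hwp : w ≠ p) (huw : u ≠ w) :
    (piv G x p).Adj u w ↔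
      ¬ (G.Adj u w ↔ ¬ ((G.Adj x u ∧ G.Adj p w) ↔ (G.Adj p u ∧ G.Adj x w))) := by
  have h2 := h.symm
  have h3 := h.ne
  have h4 := h.ne'
  have e1 : G.Adj u x ↔ G.Adj x u := G.adj_comm _ _
  have e2 : G.Adj u p ↔ G.Adj p u := G.adj_comm _ _
  have e3 : G.Adj w x ↔ G.Adj x w := G.adj_comm _ _
  have e4 : G.Adj w p ↔ G.Adj p w := G.adj_comm _ _
  by_cases hA : G.Adj u w <;> by_cases hB : G.Adj x u <;> by_cases hC : G.Adj x w <;>
    by_cases hD : G.Adj p u <;> by_cases hE : G.Adj p w <;>
    simp [piv, lc_adj, h, h2, h3, h4, e1, e2, e3, e4, hA, hB, hC, hD, hE, hux, hup, hwx, hwp,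
      hux.symm, hup.symm, hwx.symm, hwp.symm, huw]

end

section
variable {ι : Type}
theorem addself' (x : ι → ZMod 2) : x + x = 0 := by
  funext i
  exact CharTwo.add_self_eq_zero (x i)
end

open Classical in
theorem ex : EX := by
  intro ι V _ _ G U P vec x p hrep hxU hxP hpP hadj
  change Rep (piv G x p) U (insert x (P.erase p)) vec
  obtain ⟨hPU, hind, hsum⟩ := hrep
  have hpU := hPU hpP
  have hxp : x ≠ p := hadj.ne
  have hxe : x ∉ P.erase p := fun h => hxP (mem_of_mem_erase h)
  -- the sums split off p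
  have hsp : ∀ u ∈ U, u ∉ P → vec u = (if G.Adj u p then vec p else 0) +
      ∑ r ∈ P.erase p, if G.Adj u r then vec r else 0 := by
    intro u hu huP
    rw [hsum u hu huP, sum_filter, ← add_sum_erase P _ hpP]
  have hx1 := hsp x hxU hxP
  rw [if_pos hadj] at hx1
  refine ⟨?_, ?_, ?_⟩
  · intro r hr
    rcases mem_insert.mp hr with h | h
    · exact h ▸ hxU
    · exact hPU (mem_of_mem_erase h)
  · have hcase : ∀ u, u ∉ insert x (P.erase p) → u ≠ x ∧ (u = p ∨ u ∉ P) := by
      intro u hu
      rw [mem_insert, mem_erase] at hu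
      tauto
    intro u hu hu' w hw hw' huw
    obtain ⟨h1, h2⟩ := hcase u hu'
    obtain ⟨h3, h4⟩ := hcase w hw'
    rcases h2 with rfl | h2
    · rcases eq_or_ne w u with rfl | h5
      · exact (piv G x w).loopless.irrefl w huw
      · rw [piv_p G hadj h3 h5] at huw
        rcases h4 with h4 | h4
        · exact h5 h4
        · exact hind x hxU hxP w hw h4 huw
    · have hup : u ≠ p := fun h => h2 (h ▸ hpP)
      rcases eq_or_ne w p with rfl | h5
      · rw [SimpleGraph.adj_comm, piv_p G hadj h1 hup] at huw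
        exact hind x hxU hxP u hu h2 huw
      · rcases h4 with h4 | h4
        · exact h5 h4
        · rw [piv_uw G hadj h1 hup h3 h5 huw.ne] at huw
          have a1 := hind u hu h2 w hw h4
          have a2 := hind x hxU hxP u hu h2
          have a3 := hind x hxU hxP w hw h4
          tauto
  · intro u hu hu'
    rw [mem_insert, mem_erase] at hu'
    push Not at hu'
    obtain ⟨hux, hu2⟩ := hu'
    rw [sum_filter, sum_insert hxe]
    by_cases hup : u = p
    · subst hup
      rw [if_pos ((piv_xp G hadj).symm)]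
      have h5 : ∑ r ∈ P.erase u, (if (piv G x u).Adj u r then vec r else 0) =
          ∑ r ∈ P.erase u, if G.Adj x r then vec r else 0 := by
        apply sum_congr rfl
        intro r hr
        have hrx : r ≠ x := fun h => hxe (h ▸ hr)
        have hru : r ≠ u := (mem_erase.mp hr).1
        simp only [piv_p G hadj hrx hru]
      rw [h5]
      set s := ∑ r ∈ P.erase u, if G.Adj x r then vec r else 0
      rw [hx1, add_assoc, addself', add_zero]
    · have huP : u ∉ P := hu2 hup
      have hxu : ¬ G.Adj x u := hind x hxU hxP u hu huP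
      have h6 : (piv G x p).Adj u x ↔ G.Adj u p := by
        rw [SimpleGraph.adj_comm, piv_x G hadj hux hup, SimpleGraph.adj_comm]
      have h7 : ∀ r ∈ P.erase p, ((piv G x p).Adj u r ↔
          ¬ (G.Adj u r ↔ (G.Adj u p ∧ G.Adj x r))) := by
        intro r hr
        have hrx : r ≠ x := fun h => hxe (h ▸ hr)
        have hru : r ≠ p := (mem_erase.mp hr).1
        have hur : u ≠ r := fun h => huP (h ▸ mem_of_mem_erase hr)
        rw [piv_uw G hadj hux hup hrx hru hur, G.adj_comm p u]
        tauto
      rw [hsp u hu huP]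
      by_cases hadju : G.Adj u p
      · rw [if_pos hadju, if_pos (h6.mpr hadju), hx1]
        have h8 : ∑ r ∈ P.erase p, (if (piv G x p).Adj u r then vec r else 0) =
            (∑ r ∈ P.erase p, if G.Adj u r then vec r else 0) +
            ∑ r ∈ P.erase p, if G.Adj x r then vec r else 0 := by
          rw [← sum_add_distrib]
          apply sum_congr rfl
          intro r hr
          have h9 := h7 r hr
          by_cases c1 : G.Adj u r <;> by_cases c2 : G.Adj x r <;>
            simp [h9, hadju, c1, c2, addself']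
        rw [h8]
        set s1 := ∑ r ∈ P.erase p, if G.Adj u r then vec r else 0
        set s2 := ∑ r ∈ P.erase p, if G.Adj x r then vec r else 0
        have : vec p + s2 + (s1 + s2) = vec p + s1 + (s2 + s2) := by abel
        rw [this, addself', add_zero]
      · rw [if_neg hadju, if_neg (fun h => hadju (h6.mp h))]
        congr 1
        apply sum_congr rfl
        intro r hr
        have h9 := h7 r hr
        by_cases c1 : G.Adj u r <;> simp [h9, hadju, c1]

open Classical in
theorem rea (hEX : EX) : REA := by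
  intro ι V _ _ G U P Q vec hrep hQU hcard hli
  suffices h : ∀ N : ℕ, ∀ (G : SimpleGraph V) (P : Finset V), #(Q \ P) = N → #Q = #P →
      Rep G U P vec → ∃ G', LE G G' ∧ Rep G' U Q vec from h _ G P rfl hcard hrep
  intro N
  induction N with
  | zero =>
    intro G P hN hc hrep
    have h1 : Q ⊆ P := by
      rw [card_eq_zero, sdiff_eq_empty_iff_subset] at hN
      exact hN
    have h2 : Q = P := eq_of_subset_of_card_le h1 hc.ge
    subst h2
    exact ⟨G, LE.refl, hrep⟩
  | succ N ih =>
    intro G P hN hc hrep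
    have hne : (Q \ P).Nonempty := by rw [← card_pos]; omega
    obtain ⟨x, hx⟩ := hne
    rw [mem_sdiff] at hx
    obtain ⟨hxQ, hxP⟩ := hx
    have hxU := hQU hxQ
    have hex : ∃ p ∈ P, G.Adj x p ∧ p ∉ Q := by
      by_contra hcon
      push Not at hcon
      have h1 := hrep.2.2 x hxU hxP
      have h2 : vec x ∈ Submodule.span (ZMod 2) (vec '' ((Q : Set V) \ {x})) := by
        rw [h1]
        apply Submodule.sum_mem
        intro r hr
        rw [mem_filter] at hr
        apply Submodule.subset_span
        refine ⟨r, ⟨hcon r hr.1 hr.2, ?_⟩, rfl⟩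
        rintro (rfl : r = x)
        exact hxP hr.1
      exact (linearIndepOn_iff_notMem_span.mp hli x hxQ) h2
    obtain ⟨p, hpP, hadj, hpQ⟩ := hex
    have h3 := hEX ι V G U P vec x p hrep hxU hxP hpP hadj
    have hxe : x ∉ P.erase p := fun h => hxP (mem_of_mem_erase h)
    have h4 : #(insert x (P.erase p)) = #P := by
      rw [card_insert_of_notMem hxe, card_erase_of_mem hpP]
      have := card_pos.mpr ⟨p, hpP⟩
      omega
    have h5 : Q \ insert x (P.erase p) = (Q \ P).erase x := by
      ext r
      simp only [mem_sdiff, mem_insert, mem_erase]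
      constructor
      · rintro ⟨a, b⟩
        push Not at b
        refine ⟨b.1, a, fun h => ?_⟩
        exact (b.2 (fun h' => hpQ (h' ▸ a))) h
      · rintro ⟨a, b, c⟩
        refine ⟨b, ?_⟩
        rintro (h | ⟨_, h⟩)
        · exact a h
        · exact c h
    have h6 : #(Q \ insert x (P.erase p)) = N := by
      rw [h5, card_erase_of_mem (mem_sdiff.mpr ⟨hxQ, hxP⟩)]
      omega
    obtain ⟨G', hLE, hG'⟩ := ih _ _ h6 (by rw [h4]; exact hc) h3
    refine ⟨G', ?_, hG'⟩
    have htrans : ∀ {A B : SimpleGraph V}, LE A B → ∀ {C}, LE B C → LE A C := by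
      intro A B hAB C hBC
      induction hBC with
      | refl => exact hAB
      | step v _ ih => exact LE.step v ih
    exact htrans (LE.step x (LE.step p (LE.step x LE.refl))) hLE

end Pool.Agent.H53.CZD
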