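import Pool.Agent.H53.CZ.Targets

namespace Pool.Agent.H53.CZD

open Finset

theorem dc : DC := by
  intro ι _ _ T s g
  rw [sum_sigma', sum_sigma']
  refine sum_bij' (fun x _ => ⟨insert x.2 x.1, x.2⟩) (fun y _ => ⟨y.1.erase y.2, y.2⟩) ?_ ?_ ?_ ?_ ?_
  · rintro ⟨A, t⟩ h
    simp only [mem_sigma, mem_powersetCard, mem_sdiff] at h ⊢
    obtain ⟨⟨h1, h2⟩, h3, h4⟩ := h
    refine ⟨⟨insert_subset h3 h1, ?_⟩, mem_insert_self _ _⟩
    rw [card_insert_of_notMem h4, h2]
  · rintro ⟨B, t⟩ h
    simp only [mem_sigma, mem_powersetCard, mem_sdiff] at h ⊢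
    obtain ⟨⟨h1, h2⟩, h3⟩ := h
    refine ⟨⟨(erase_subset _ _).trans h1, ?_⟩, h1 h3, notMem_erase _ _⟩
    rw [card_erase_of_mem h3, h2]; rfl
  · rintro ⟨A, t⟩ h
    simp only [mem_sigma, mem_powersetCard, mem_sdiff] at h
    obtain ⟨_, _, h4⟩ := h
    simp [erase_insert h4]
  · rintro ⟨B, t⟩ h
    simp only [mem_sigma, mem_powersetCard] at h
    simp [insert_erase h.2]
  · rintro ⟨A, t⟩ _
    rfl

theorem ha (hLC : LC) (hSPL : SPL) (hDC : DC) : HA := by
  intro ι _ _ C T L R δ hR hδ hL hRR hsep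
  set m := #T with hm
  set P := #C with hP
  have hδ0 : 0 < δ := by omega
  rcases Nat.eq_zero_or_pos m with h0 | hpos
  · -- no coordinates
    have hT : T = ∅ := card_eq_zero.mp (by omega)
    have hP1 : P ≤ 1 := by
      rw [hP, card_le_one]
      intro a ha b hb
      by_contra hab
      have h1 := hsep a ha b hb hab
      rw [hT] at h1
      simp at h1
      omega
    have h2 : δ * P ≤ δ * 1 := Nat.mul_le_mul_left _ hP1
    omega
  · -- choose s'
    obtain ⟨s', hs1, hs2⟩ : ∃ s', s' * δ < 2 * R * m ∧ 2 * R * m ≤ (s' + 1) * δ := by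
      refine ⟨(2 * R * m - 1) / δ, ?_, ?_⟩
      · have h1 := Nat.div_mul_le_self (2 * R * m - 1) δ
        have h2 : 0 < 2 * R * m := by positivity
        omega
      · have h1 := Nat.lt_mul_div_succ (2 * R * m - 1) hδ0
        rw [mul_comm δ] at h1
        omega
    have hs3 : s' + 1 ≤ m := by
      by_contra hcon
      have h1 : m ≤ s' := by omega
      have h2 : m * δ ≤ s' * δ := Nat.mul_le_mul_right _ h1
      have h3 : 2 * R * m ≤ m * δ := by rw [mul_comm m δ]; exact Nat.mul_le_mul_right _ hδ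
      omega
    -- sum of SPL
    have hA : ∀ A ∈ powersetCard s' T, δ * P ≤ δ * (L * s' + 1) +
        ∑ t ∈ T \ A, edgeWt C (insert t A) t := by
      intro A hA
      rw [mem_powersetCard] at hA
      have h1 := hSPL ι C T A δ hA.1 hsep
      have h2 := hL A hA.1
      rw [hA.2] at h2
      have h3 : δ * #(tr C A) ≤ δ * (L * s' + 1) := Nat.mul_le_mul_left _ h2
      rw [← hP] at h1
      exact h1.trans (Nat.add_le_add_right h3 _)
    have hsum := sum_le_sum hA
    rw [sum_const, sum_add_distrib, sum_const, hDC ι T s' (fun B t => edgeWt C B t),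
      card_powersetCard, smul_eq_mul, smul_eq_mul, ← hm] at hsum
    have hB : ∀ B ∈ powersetCard (s' + 1) T, ∑ t ∈ B, edgeWt C B t ≤ R * P := by
      intro B hB
      rw [mem_powersetCard] at hB
      exact hLC ι C B R (hRR B hB.1)
    have hsum2 := sum_le_sum hB
    rw [sum_const, card_powersetCard, smul_eq_mul, ← hm] at hsum2
    have hch : m.choose (s' + 1) * (s' + 1) = m.choose s' * (m - s') := Nat.choose_succ_right_eq m s'
    have hcpos : 0 < m.choose s' := Nat.choose_pos (by omega)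
    set c := m.choose s'
    set c1 := m.choose (s' + 1)
    have h1 : c * (δ * P) ≤ c * (δ * (L * s' + 1)) + c1 * (R * P) := by omega
    have h2 : (s' + 1) * (δ * P) ≤ (s' + 1) * (δ * (L * s' + 1)) + m * (R * P) := by
      have h3 : c * ((s' + 1) * (δ * P)) ≤
          c * ((s' + 1) * (δ * (L * s' + 1)) + m * (R * P)) := by
        calc c * ((s' + 1) * (δ * P)) = (s' + 1) * (c * (δ * P)) := by ring
          _ ≤ (s' + 1) * (c * (δ * (L * s' + 1)) + c1 * (R * P)) := Nat.mul_le_mul_left _ h1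
          _ = c * ((s' + 1) * (δ * (L * s' + 1))) + (c1 * (s' + 1)) * (R * P) := by ring
          _ = c * ((s' + 1) * (δ * (L * s' + 1))) + (c * (m - s')) * (R * P) := by rw [hch]
          _ ≤ c * ((s' + 1) * (δ * (L * s' + 1))) + (c * m) * (R * P) := by
              apply Nat.add_le_add_left
              apply Nat.mul_le_mul_right
              exact Nat.mul_le_mul_left _ (Nat.sub_le _ _)
          _ = c * ((s' + 1) * (δ * (L * s' + 1)) + m * (R * P)) := by ring
      exact Nat.le_of_mul_le_mul_left h3 hcpos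
    have h4 : 2 * (m * (R * P)) ≤ (s' + 1) * (δ * P) := by
      calc 2 * (m * (R * P)) = (2 * R * m) * P := by ring
        _ ≤ ((s' + 1) * δ) * P := Nat.mul_le_mul_right _ hs2
        _ = (s' + 1) * (δ * P) := by ring
    have h5 : (s' + 1) * (δ * P) ≤ (s' + 1) * (2 * (δ * (L * s' + 1))) := by
      have : (s' + 1) * (2 * (δ * (L * s' + 1))) = 2 * ((s' + 1) * (δ * (L * s' + 1))) := by ring
      omega
    have h6 : δ * P ≤ 2 * (δ * (L * s' + 1)) := Nat.le_of_mul_le_mul_left h5 (by omega)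
    have h7 : 2 * (δ * (L * s' + 1)) = 2 * L * (s' * δ) + 2 * δ := by ring
    have h8 : 2 * L * (s' * δ) ≤ 2 * L * (2 * R * m) := Nat.mul_le_mul_left _ hs1.le
    have h9 : 2 * L * (2 * R * m) = 4 * L * R * m := by ring
    omega

end Pool.Agent.H53.CZD
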