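import Pool.Agent.H53.CZ.PL

namespace Pool.Agent.H53.CZD

open Finset

theorem lg (hPL : PL) (hSHR : SHR) (hL : LIFT) : LG := by
  intro ι _ _ q
  have hmain : ∀ N : ℕ, ∀ S : Finset (ι → ZMod 2), #S = N →
      (0 : ι → ZMod 2) ∉ S → ¬ Rich S q →
      #S ≤ R0 q * Module.finrank (ZMod 2)
        (Submodule.span (ZMod 2) (S : Set (ι → ZMod 2))) := by
    intro N
    induction N using Nat.strong_induction_on with
    | _ N ih =>
    intro S hN h0 hrich
    by_contra hlt
    push Not at hlt
    have hne : S.Nonempty := by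
      rw [← card_pos]; omega
    have hdg : ∀ h ∈ S, 2 * R0 q ≤ dg S S h := by
      intro h hh
      obtain ⟨t, ht⟩ := exists_coord (h := h) (fun h' => h0 (h' ▸ hh))
      obtain ⟨h1, h2⟩ := hSHR ι S h t hh ht h0
      have h3 := ih (#(shrink S h t)) (by
        have := shrink_card_lt S h t hh ht
        omega) (shrink S h t) rfl (by unfold shrink; exact notMem_erase _ _)
        (fun hr => hrich (rich_of_shrink hL S h t hh ht q hr))
      have h4 : R0 q * (Module.finrank (ZMod 2)
          (Submodule.span (ZMod 2) ((shrink S h t : Finset (ι → ZMod 2)) :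
            Set (ι → ZMod 2))) + 1) ≤ R0 q * Module.finrank (ZMod 2)
          (Submodule.span (ZMod 2) (S : Set (ι → ZMod 2))) := Nat.mul_le_mul_left _ h1
      rw [mul_add, mul_one] at h4
      omega
    have h5 : #S • (2 * R0 q) ≤ ∑ h ∈ S, dg S S h := card_nsmul_le_sum _ _ _ hdg
    rw [smul_eq_mul, ← ecount_eq_sum] at h5
    refine hrich (hPL ι q S S h0 (subset_insert _ _) hne ?_)
    calc R0 q * #S ≤ #S * (2 * R0 q) := by nlinarith [Nat.zero_le (R0 q * #S)]
      _ ≤ _ := h5
  intro S h0 h1
  exact hmain _ S rfl h0 h1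

end Pool.Agent.H53.CZD
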