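import Pool.Agent.H53.CZ.Targets

namespace Pool.Agent.H53.CZD

open Finset

theorem LE.mem {F : ∀ n : ℕ, SimpleGraph (Fin n) → Prop} (hF : VMClosed F) {n : ℕ}
    {G G' : SimpleGraph (Fin n)} (h : LE G G') (hG : F n G) : F n G' := by
  induction h with
  | refl => exact hG
  | step v _ ih => exact hF.lc _ _ _ ih

open Classical in
theorem nr (hREA : REA) (hCHO : CHO) (hUNI : UNI) (hCM : CM) : NR := by
  intro F hF t H hH n G U T hG hTU hind hrich
  apply hH
  set vec := gvec G T with hvec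
  have hv1 : ∀ x ∈ T, vec x = Pi.single x 1 := by
    intro x hx
    rw [hvec]; unfold gvec; rw [if_pos hx]
  have hv2 : ∀ u ∈ U, ∀ i, i ∉ T → vec u i = 0 := by
    intro u _ i hi
    by_cases hu : u ∈ T
    · rw [hv1 u hu]
      exact Pi.single_eq_of_ne (fun h => hi (by rw [h]; exact hu)) 1
    · rw [hvec]; unfold gvec; rw [if_neg hu]
      exact if_neg (fun h => hi h.1)
  obtain ⟨Q, α, β, ζ, hQU, hQT, hli, hα, hβ, hζ, hαi, hβi, hαβ, hζi, hN⟩ :=
    hCHO (Fin n) U T vec (t ^ 2 + t) hTU hv1 hv2 (by convert hrich)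
  have hrep : Rep G U T vec := by
    refine ⟨hTU, hind, ?_⟩
    intro x hx hxT
    rw [sum_congr rfl (fun p hp => hv1 p (mem_filter.mp hp).1)]
    rw [hvec]; unfold gvec; rw [if_neg hxT]
    funext i
    rw [Finset.sum_apply]
    by_cases hi : i ∈ T ∧ G.Adj x i
    · rw [if_pos hi, Finset.sum_eq_single i]
      · rw [Pi.single_eq_same]
      · intro b _ hb
        exact Pi.single_eq_of_ne (Ne.symm hb) 1
      · intro hb
        exact absurd (mem_filter.mpr hi) hb
    · rw [if_neg hi]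
      symm
      apply Finset.sum_eq_zero
      intro b hb
      rw [mem_filter] at hb
      refine Pi.single_eq_of_ne ?_ 1
      rintro rfl
      exact hi hb
  obtain ⟨G', hLE, hrep'⟩ := hREA (Fin n) (Fin n) G U T Q vec hrep hQU hQT hli
  obtain ⟨_, hind', hsum'⟩ := hrep'
  have hadj : ∀ i j k, (G'.Adj (ζ i j) (α k) ↔ k = i) ∧ (G'.Adj (ζ i j) (β k) ↔ k = j) := by
    intro i j k
    have h1 := hsum' (ζ i j) (hζ i j).1 (hζ i j).2
    have h2 := hN i j {p ∈ Q | G'.Adj (ζ i j) p} (filter_subset _ _) h1.symm k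
    rw [mem_filter, mem_filter] at h2
    exact ⟨⟨fun h => h2.1.mp ⟨hα k, h⟩, fun h => (h2.1.mpr h).2⟩,
      ⟨fun h => h2.2.mp ⟨hβ k, h⟩, fun h => (h2.2.mpr h).2⟩⟩
  have hle : t ≤ t ^ 2 + t := by omega
  set e : Fin t → Fin (t ^ 2 + t) := Fin.castLE hle with he
  have hei : Function.Injective e := Fin.castLE_injective hle
  set X : Finset (Sym2 (Fin t)) :=
    {s | ¬ s.IsDiag ∧ ¬ (s ∈ (G'.comap (α ∘ e)).edgeSet ↔ s ∈ H.edgeSet)} with hX
  have hXc : #X ≤ t ^ 2 + t := by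
    calc #X ≤ Fintype.card (Sym2 (Fin t)) := card_le_univ _
      _ = (t + 1).choose 2 := by rw [Sym2.card, Fintype.card_fin]
      _ ≤ t ^ 2 + t := by
        rw [Nat.choose_two_right]
        have : (t + 1) * (t + 1 - 1) = t ^ 2 + t := by
          rw [Nat.add_sub_cancel]; ring
        rw [this]
        exact Nat.div_le_self _ _
  obtain ⟨G'', hLE', hG''⟩ := hUNI (Fin n) t (t ^ 2 + t) G' (α ∘ e) β (fun i j => ζ (e i) j)
    (hαi.comp hei) hβi (fun i j i' j' h => ⟨hei (hζi _ _ _ _ h).1, (hζi _ _ _ _ h).2⟩)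
    (fun i j => hαβ _ _) (fun i j k h => (hζ (e i) j).2 (by rw [h]; exact hα _))
    (fun i j k h => (hζ (e i) j).2 (by rw [h]; exact hβ _))
    (fun i j k => ((hadj (e i) j (e k)).1).trans ⟨fun h => hei h, fun h => by rw [h]⟩)
    (fun i j k => (hadj (e i) j k).2)
    (fun i j i' j' => hind' _ (hζ _ _).1 (hζ _ _).2 _ (hζ _ _).1 (hζ _ _).2)
    X hXc (fun s hs => (mem_filter.mp hs).2.1)
  have hfin : G''.comap (α ∘ e) = H := by
    ext i k
    rw [SimpleGraph.comap_adj]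
    by_cases hik : i = k
    · subst hik
      simp
    · rw [hG'' i k hik]
      have h1 : s(i, k) ∈ X ↔ ¬ (G'.Adj ((α ∘ e) i) ((α ∘ e) k) ↔ H.Adj i k) := by
        rw [hX, mem_filter]
        simp only [mem_univ, true_and, Sym2.mk_isDiag_iff, SimpleGraph.mem_edgeSet,
          SimpleGraph.comap_adj]
        exact ⟨fun h => h.2, fun h => ⟨hik, h⟩⟩
      rw [h1]
      tauto
  rw [← hfin]
  exact hCM F hF t n G'' (α ∘ e) (hαi.comp hei) (LE.mem hF hLE' (LE.mem hF hLE hG))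

end Pool.Agent.H53.CZD
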