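import Pool.Agent.H53.CZ.PL

namespace Pool.Agent.H53.CZD

open Finset

theorem zmod2_cases (a : ZMod 2) : a = 0 ∨ a = 1 := by
  revert a; decide

theorem shr : SHR := by
  intro ι _ _ S h t hS ht h0
  have hh0 : h ≠ 0 := fun h' => h0 (h' ▸ hS)
  constructor
  · set M := Submodule.span (ZMod 2) (S : Set (ι → ZMod 2)) with hM
    set p := contr h t with hp
    have h1 : Submodule.span (ZMod 2) ((shrink S h t : Finset (ι → ZMod 2)) :
        Set (ι → ZMod 2)) ≤ M.map p := by
      rw [Submodule.span_le]
      intro y hy
      unfold shrink at hy
      rw [mem_coe, mem_erase, mem_image] at hy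
      obtain ⟨_, x, hx, rfl⟩ := hy
      exact ⟨x, Submodule.subset_span hx, rfl⟩
    have h2 := Submodule.finrank_mono h1
    have h3 := (p.domRestrict M).finrank_range_add_finrank_ker
    have h4 : LinearMap.range (p.domRestrict M) = M.map p := LinearMap.range_domRestrict M p
    rw [h4] at h3
    have h5 : 0 < Module.finrank (ZMod 2) (LinearMap.ker (p.domRestrict M)) := by
      rw [Module.finrank_pos_iff]
      refine ⟨⟨⟨⟨h, Submodule.subset_span hS⟩, ?_⟩, 0, ?_⟩⟩
      · rw [LinearMap.mem_ker, LinearMap.domRestrict_apply]
        exact contr_self h t ht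
      · intro h6
        apply hh0
        have := congrArg (fun z => ((z : M) : ι → ZMod 2)) (congrArg Subtype.val h6)
        simpa using this
    omega
  · set S' := S.erase h with hS'
    have h1 : #S' + 1 = #S := card_erase_add_one hS
    have hp0 : ∀ x ∈ S', contr h t x ≠ 0 := by
      intro x hx hz
      rw [hS', mem_erase] at hx
      rw [contr_apply] at hz
      rcases zmod2_cases (x t) with h2 | h2
      · rw [h2, zero_smul, add_zero] at hz
        exact h0 (hz ▸ hx.2)
      · rw [h2, one_smul] at hz
        apply hx.1
        have : x + (h + h) = h := by rw [← add_assoc, hz, zero_add]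
        rwa [addself, add_zero] at this
    set Q := S'.filter (fun x => ¬ (x t = 1 ∧ x + h ∈ S')) with hQ
    set B := S'.filter (fun x => x t = 1 ∧ x + h ∈ S') with hB
    have h2 : #B + #Q = #S' := card_filter_add_card_filter_not (s := S') _
    have h3 : #Q ≤ #(shrink S h t) := by
      apply card_le_card_of_injOn (contr h t)
      · intro x hx
        have hx' := (mem_filter.mp (mem_coe.mp hx)).1
        unfold shrink
        rw [mem_coe, mem_erase, mem_image]
        exact ⟨hp0 x hx', x, mem_of_mem_erase hx', rfl⟩
      · intro x hx y hy hxy
        rw [mem_coe, hQ, mem_filter] at hx hy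
        change contr h t x = contr h t y at hxy
        rw [contr_apply, contr_apply] at hxy
        rcases zmod2_cases (x t) with hx1 | hx1 <;> rcases zmod2_cases (y t) with hy1 | hy1
        · rw [hx1, hy1] at hxy
          exact add_right_cancel hxy
        · exfalso
          apply hy.2
          rw [hx1, hy1, zero_smul, add_zero, one_smul] at hxy
          exact ⟨hy1, hxy ▸ hx.1⟩
        · exfalso
          apply hx.2
          rw [hx1, hy1, zero_smul, add_zero, one_smul] at hxy
          exact ⟨hx1, hxy ▸ hy.1⟩
        · rw [hx1, hy1] at hxy
          exact add_right_cancel hxy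
    have h4 : 2 * #B ≤ dg S S h := by
      have h5 : #(B ∪ B.image (· + h)) = #B + #B := by
        rw [card_union_of_disjoint, card_image_of_injective _ (add_left_injective h)]
        rw [disjoint_left]
        intro x hx hx'
        obtain ⟨y, hy, rfl⟩ := mem_image.mp hx'
        rw [hB, mem_filter] at hx hy
        have a1 := hx.2.1
        have a2 := hy.2.1
        rw [Pi.add_apply, a2, ht] at a1
        exact absurd a1 (by decide)
      have h6 : B ∪ B.image (· + h) ⊆ ({y ∈ S | h + y ∈ S} : Finset (ι → ZMod 2)) := by
        intro x hx
        rcases mem_union.mp hx with hx | hx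
        · rw [hB, mem_filter] at hx
          rw [mem_filter, add_comm]
          exact ⟨mem_of_mem_erase hx.1, mem_of_mem_erase hx.2.2⟩
        · obtain ⟨y, hy, rfl⟩ := mem_image.mp hx
          rw [hB, mem_filter] at hy
          rw [mem_filter]
          refine ⟨mem_of_mem_erase hy.2.2, ?_⟩
          have : h + (y + h) = y := by
            rw [add_comm y h, ← add_assoc, addself, zero_add]
          rw [this]
          exact mem_of_mem_erase hy.1
      have h7 := card_le_card h6
      unfold dg
      omega
    omega

end Pool.Agent.H53.CZD
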