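import Pool.Agent.H53.CZ.PL
import Pool.Agent.H53.CZ.LG
import Pool.Agent.H53.CZ.NR
import Pool.Agent.H53.CZ.HA
import Pool.Agent.H53.CZ.EX
import Pool.Agent.H53.CZ.SHR
import Pool.Agent.H77.CZBLD
import Pool.Agent.H77.CZTWI
import Pool.Agent.H64.CZ.CHO
import Pool.Agent.H64.CZ.SPL
import Pool.Agent.H2.CZD.CM
import Pool.Agent.H18.CZ.DEP
import Pool.Agent.H18.CZ.LC
import Pool.Agent.H73.CZ.DR
import Pool.Agent.H73.CZ.SHC
import Pool.Agent.H73.CZ.UNI
import Pool.Agent.H4.CZ.GLE
import Pool.Agent.H4.CZ.GS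
import Pool.Agent.H4.CZ.LIFT
import Pool.Agent.H4.CZ.RK
import Pool.Agent.H34.CZ.KST
import Pool.Agent.H34.CZ.PLUS
import Pool.Agent.H42.CZ.TOG

namespace Pool.Agent.H53.CZD

open Finset

/-! ## All targets -/

theorem p_LIFT : LIFT := Pool.Agent.H4.CZ.lift
theorem p_DR : DR := Pool.Agent.H73.CZ.DR.dr Pool.Agent.H34.CZ.kst Pool.Agent.H18.CZ.dep
theorem p_PL : PL := pl p_LIFT Pool.Agent.H73.CZ.SHC.shc Pool.Agent.H4.CZ.gs
  Pool.Agent.H4.CZ.rk Pool.Agent.H4.CZ.gle p_DR
theorem p_LG : LG := lg p_PL shr p_LIFT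
theorem p_HA : HA := ha Pool.Agent.H18.CZ.lcake Pool.Agent.H64.CZ.spl dc
theorem p_NR : NR := nr (rea ex) Pool.Agent.H64.CZ.cho Pool.Agent.H73.CZ.UNI.uni
  Pool.Agent.H2.CZD.pf_CM
theorem p_BLD : BLD := Pool.Agent.H77.CZBLD.bld Pool.Agent.H42.CZ.tog Pool.Agent.H77.CZTWI.twi
  Pool.Agent.H34.CZ.plus

/-! ## Packing in graphs -/

section
variable {ι : Type} [Fintype ι] [DecidableEq ι]

theorem restr_apply (T : Finset ι) (x : ι → ZMod 2) (i : ι) :
    restr T x i = if i ∈ T then x i else 0 := rfl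

theorem restr_single {T : Finset ι} {t : ι} (h : t ∈ T) :
    restr T (Pi.single t 1 : ι → ZMod 2) = Pi.single t 1 := by
  funext i
  rw [restr_apply]
  by_cases hi : i = t
  · subst hi; rw [if_pos h]
  · rw [Pi.single_eq_of_ne hi]; simp

theorem restr_single_notMem {T : Finset ι} {t : ι} (h : t ∉ T) :
    restr T (Pi.single t 1 : ι → ZMod 2) = 0 := by
  funext i
  rw [restr_apply]
  by_cases hi : i = t
  · subst hi; rw [if_neg h]; rfl
  · rw [Pi.single_eq_of_ne hi]; simp

/-- A vector supported on `T` is in the span of the units of `T`. -/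
theorem mem_span_units {T : Finset ι} {x : ι → ZMod 2} (h : ∀ i, i ∉ T → x i = 0) :
    x ∈ Submodule.span (ZMod 2) ((units T : Finset (ι → ZMod 2)) : Set (ι → ZMod 2)) := by
  have h1 : x = ∑ t ∈ T, x t • (Pi.single t 1 : ι → ZMod 2) := by
    funext i
    rw [Finset.sum_apply]
    by_cases hi : i ∈ T
    · rw [Finset.sum_eq_single i]
      · simp
      · intro b _ hb
        rw [Pi.smul_apply, Pi.single_eq_of_ne (Ne.symm hb), smul_zero]
      · intro hb; exact absurd hi hb
    · rw [h i hi]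
      symm
      apply Finset.sum_eq_zero
      intro b hb
      rw [Pi.smul_apply, Pi.single_eq_of_ne, smul_zero]
      rintro rfl
      exact hi hb
  rw [h1]
  apply Submodule.sum_mem
  intro t ht
  apply Submodule.smul_mem
  apply Submodule.subset_span
  rw [mem_coe]; unfold units
  exact mem_image_of_mem _ ht

end

open Classical in
theorem pack {F : ∀ n : ℕ, SimpleGraph (Fin n) → Prop} (hF : VMClosed F) {t : ℕ}
    {H : SimpleGraph (Fin t)} (hH : ¬ F t H) {n : ℕ} {G : SimpleGraph (Fin n)}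
    (hG : F n G) {U T : Finset (Fin n)} (hTU : T ⊆ U)
    (hind : ∀ x ∈ U, x ∉ T → ∀ y ∈ U, y ∉ T → ¬ G.Adj x y) (δ : ℕ)
    (hδ : 2 * R0 (t ^ 2 + t) ≤ δ)
    (hsep : ∀ c ∈ (U \ T).image (gvec G T), ∀ d ∈ (U \ T).image (gvec G T), c ≠ d →
      δ ≤ #{i ∈ T | c i ≠ d i}) :
    δ * #((U \ T).image (gvec G T)) ≤ 4 * R0 (t ^ 2 + t) * R0 (t ^ 2 + t) * #T + 2 * δ := by
  set q := t ^ 2 + t with hq
  set C := (U \ T).image (gvec G T) with hC
  set S := (U.image (gvec G T)).erase 0 with hS
  have hR1 : 1 ≤ R0 q := by unfold R0; exact Nat.one_le_two_pow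
  have hnr : ¬ Rich S q := by
    have := p_NR F hF t H hH n G U T hG hTU hind
    convert this
  have hgT : ∀ x ∈ T, gvec G T x = Pi.single x 1 := by
    intro x hx; unfold gvec; rw [if_pos hx]
  have hsupp : ∀ u, ∀ i, i ∉ T → gvec G T u i = 0 := by
    intro u i hi
    by_cases hu : u ∈ T
    · rw [hgT u hu]
      exact Pi.single_eq_of_ne (fun h => hi (by rw [h]; exact hu)) 1
    · unfold gvec; rw [if_neg hu]
      exact if_neg (fun h => hi h.1)
  have hunitS : ∀ x ∈ T, (Pi.single x 1 : Fin n → ZMod 2) ∈ S := by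
    intro x hx
    rw [hS, mem_erase]
    refine ⟨?_, ?_⟩
    · intro h
      have := congrFun h x
      rw [Pi.single_eq_same, Pi.zero_apply] at this
      exact absurd this (by decide)
    · rw [← hgT x hx]
      exact mem_image_of_mem _ (hTU hx)
  have hspan : ∀ x ∈ Submodule.span (ZMod 2) (S : Set (Fin n → ZMod 2)), ∀ i, i ∉ T → x i = 0 := by
    intro x hx i hi
    induction hx using Submodule.span_induction with
    | mem y hy =>
      rw [mem_coe, hS, mem_erase, mem_image] at hy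
      obtain ⟨_, u, _, rfl⟩ := hy
      exact hsupp u i hi
    | zero => rfl
    | add y z _ _ h1 h2 => rw [Pi.add_apply, h1, h2, add_zero]
    | smul a y _ h1 => rw [Pi.smul_apply, h1, smul_zero]
  -- restricted configurations
  have hres : ∀ A ⊆ T, ¬ Rich ((S.image (restr A)).erase 0) q := by
    intro A hA hr
    apply hnr
    refine p_LIFT (Fin n) S (restr A) ((units (T \ A) : Finset (Fin n → ZMod 2)) :
      Set (Fin n → ZMod 2)) ?_ ?_ ?_ q hr
    · intro d hd
      rw [mem_coe] at hd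
      unfold units at hd
      obtain ⟨x, hx, rfl⟩ := mem_image.mp hd
      exact hunitS x (mem_sdiff.mp hx).1
    · intro d hd
      rw [mem_coe] at hd
      unfold units at hd
      obtain ⟨x, hx, rfl⟩ := mem_image.mp hd
      exact restr_single_notMem (mem_sdiff.mp hx).2
    · intro x hx hx0
      apply mem_span_units
      intro i hi
      by_cases hiT : i ∈ T
      · have hiA : i ∈ A := by
          by_contra h
          exact hi (mem_sdiff.mpr ⟨hiT, h⟩)
        have := congrFun hx0 i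
        rw [restr_apply, if_pos hiA] at this
        exact this
      · exact hspan x hx i hiT
  have hCS : ∀ A : Finset (Fin n), tr C A ⊆ insert 0 ((S.image (restr A)).erase 0) := by
    intro A y hy
    unfold tr at hy
    obtain ⟨c, hc, rfl⟩ := mem_image.mp hy
    rw [mem_insert]
    by_cases hz : restr A c = 0
    · exact Or.inl hz
    · right
      rw [mem_erase]
      refine ⟨hz, mem_image_of_mem _ ?_⟩
      rw [hS, mem_erase]
      refine ⟨fun h => hz (by rw [h, map_zero]), ?_⟩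
      rw [hC] at hc
      obtain ⟨u, hu, rfl⟩ := mem_image.mp hc
      exact mem_image_of_mem _ (mem_sdiff.mp hu).1
  refine p_HA (Fin n) C T (R0 q) (R0 q) δ hR1 hδ ?_ ?_ hsep
  · intro A hA
    have h1 := p_LG (Fin n) q _ (notMem_erase _ _) (hres A hA)
    have h2 : Module.finrank (ZMod 2) (Submodule.span (ZMod 2)
        (((S.image (restr A)).erase 0 : Finset (Fin n → ZMod 2)) :
          Set (Fin n → ZMod 2))) ≤ #A := by
      have h3 : Submodule.span (ZMod 2)
        (((S.image (restr A)).erase 0 : Finset (Fin n → ZMod 2)) : Set (Fin n → ZMod 2)) ≤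
          Submodule.span (ZMod 2) ((units A : Finset (Fin n → ZMod 2)) :
            Set (Fin n → ZMod 2)) := by
        rw [Submodule.span_le]
        intro y hy
        rw [mem_coe, mem_erase, mem_image] at hy
        obtain ⟨_, s, _, rfl⟩ := hy
        apply mem_span_units
        intro i hi
        rw [restr_apply, if_neg hi]
      have h4 := Submodule.finrank_mono h3
      have h5 : Module.finrank (ZMod 2) (Submodule.span (ZMod 2)
          ((units A : Finset (Fin n → ZMod 2)) : Set (Fin n → ZMod 2))) ≤ #(units A) :=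
        finrank_span_finset_le_card _
      have h6 : #(units A) ≤ #A := by unfold units; exact card_image_le
      omega
    have h3 : #(tr C A) ≤ #(insert 0 ((S.image (restr A)).erase 0)) := card_le_card (hCS A)
    have h4 := card_insert_le (0 : Fin n → ZMod 2) ((S.image (restr A)).erase 0)
    have h5 := Nat.mul_le_mul_left (R0 q) h2
    omega
  · intro A hA Y hY
    by_cases hYe : Y.Nonempty
    · by_contra hcon
      push Not at hcon
      apply hres A hA
      refine p_PL (Fin n) q _ Y (notMem_erase _ _) (hY.trans (hCS A)) hYe ?_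
      refine hcon.le.trans ?_
      unfold ecount
      apply card_le_card
      intro p hp
      rw [mem_filter] at hp ⊢
      refine ⟨hp.1, ?_⟩
      have h1 := hp.2
      unfold units at h1
      obtain ⟨a, ha, hae⟩ := mem_image.mp h1
      rw [← hae, mem_erase]
      have h2 := hunitS a (hA ha)
      refine ⟨?_, ?_⟩
      · rw [hS, mem_erase] at h2
        exact h2.1
      · rw [← restr_single ha]
        exact mem_image_of_mem _ h2
    · rw [not_nonempty_iff_eq_empty] at hYe
      subst hYe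
      simp [ecount]

open Classical in
/-- Near twins. -/
theorem near {F : ∀ n : ℕ, SimpleGraph (Fin n) → Prop} (hF : VMClosed F) {t : ℕ}
    {H : SimpleGraph (Fin t)} (hH : ¬ F t H) {n : ℕ} {G : SimpleGraph (Fin n)}
    (hG : F n G) (η : ℕ) (U : Finset (Fin n)) (hU : U.Nonempty)
    (hI : ∃ I ⊆ U, (∀ x ∈ I, ∀ y ∈ I, ¬ G.Adj x y) ∧ #U ≤ η * #I) :
    ∃ b ∈ U, #{x ∈ U | G.Adj b x} ≤ 8 * R0 (t ^ 2 + t) ^ 2 * η ∨
      ∃ a ∈ U, a ≠ b ∧ ¬ G.Adj a b ∧
        #{x ∈ U | ¬ (G.Adj a x ↔ G.Adj b x)} ≤ 8 * R0 (t ^ 2 + t) ^ 2 * η := by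
  obtain ⟨I, hIU, hind, hcard⟩ := hI
  set R := R0 (t ^ 2 + t) with hR
  have hR1 : 1 ≤ R := by rw [hR]; unfold R0; exact Nat.one_le_two_pow
  have hR2 : 1 ≤ R ^ 2 := Nat.one_le_pow _ _ hR1
  have hUc : 0 < #U := card_pos.mpr hU
  have hη : 1 ≤ η := by
    by_contra h
    have : η = 0 := by omega
    rw [this, zero_mul] at hcard
    omega
  rcases Nat.lt_or_ge (#I) 4 with h4 | h4
  · obtain ⟨b, hb⟩ := hU
    refine ⟨b, hb, Or.inl ?_⟩
    have h1 : #{x ∈ U | G.Adj b x} ≤ #U := card_filter_le _ _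
    have h2 : η * #I ≤ η * 3 := Nat.mul_le_mul_left _ (by omega)
    have h3 : η * 8 ≤ R ^ 2 * (η * 8) := Nat.le_mul_of_pos_left _ (by omega)
    have h5 : 8 * R ^ 2 * η = R ^ 2 * (η * 8) := by ring
    omega
  · by_contra hcon
    push Not at hcon
    set k := 8 * R ^ 2 * η with hk
    set T := U \ I with hT
    have hTU : T ⊆ U := sdiff_subset
    have hUT : U \ T = I := by rw [hT]; exact Finset.sdiff_sdiff_eq_self hIU
    have hnT : ∀ x ∈ U, x ∉ T → x ∈ I := by
      intro x hx hx'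
      rw [← hUT]; exact mem_sdiff.mpr ⟨hx, hx'⟩
    have hind' : ∀ x ∈ U, x ∉ T → ∀ y ∈ U, y ∉ T → ¬ G.Adj x y :=
      fun x hx hx' y hy hy' => hind x (hnT x hx hx') y (hnT y hy hy')
    have hInT : ∀ x ∈ I, x ∉ T := by
      intro x hx hx'
      rw [hT, mem_sdiff] at hx'
      exact hx'.2 hx
    -- distance
    have hdist : ∀ a ∈ I, ∀ b ∈ I, ({x ∈ U | ¬ (G.Adj a x ↔ G.Adj b x)} : Finset (Fin n)) ⊆
        {i ∈ T | gvec G T a i ≠ gvec G T b i} := by
      intro a ha b hb x hx
      rw [mem_filter] at hx ⊢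
      have hxT : x ∈ T := by
        by_contra h
        have hxI := hnT x hx.1 h
        have h1 := hind a ha x hxI
        have h2 := hind b hb x hxI
        exact hx.2 ⟨fun h' => absurd h' h1, fun h' => absurd h' h2⟩
      refine ⟨hxT, ?_⟩
      unfold gvec
      rw [if_neg (hInT a ha), if_neg (hInT b hb)]
      by_cases h1 : G.Adj a x
      · by_cases h2 : G.Adj b x
        · exact absurd ⟨fun _ => h2, fun _ => h1⟩ hx.2
        · rw [if_pos ⟨hxT, h1⟩, if_neg (fun h => h2 h.2)]
          decide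
      · by_cases h2 : G.Adj b x
        · rw [if_neg (fun h => h1 h.2), if_pos ⟨hxT, h2⟩]
          decide
        · exact absurd ⟨fun h => absurd h h1, fun h => absurd h h2⟩ hx.2
    have hfar : ∀ a ∈ I, ∀ b ∈ I, a ≠ b → k + 1 ≤ #{i ∈ T | gvec G T a i ≠ gvec G T b i} := by
      intro a ha b hb hab
      have h1 : k < #{x ∈ U | ¬ (G.Adj a x ↔ G.Adj b x)} := by
        have h0 := (hcon b (hIU hb)).2 a (hIU ha) hab (hind a ha b hb)
        refine h0.trans_le (card_le_card ?_)
        intro x hx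
        rw [mem_filter] at hx ⊢
        refine ⟨hx.1, ?_⟩
        have := hx.2
        tauto
      have h2 := card_le_card (hdist a ha b hb)
      omega
    have hinj : Set.InjOn (gvec G T) (I : Set (Fin n)) := by
      intro a ha b hb hab
      by_contra hne
      have h1 := hfar a ha b hb hne
      rw [hab] at h1
      simp at h1
    have hCcard : #((U \ T).image (gvec G T)) = #I := by
      rw [hUT]; exact card_image_of_injOn hinj
    have hkR : 2 * R ≤ k + 1 := by
      have h1 : R * (8 * R * η) = 8 * R ^ 2 * η := by ring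
      have h2 : 2 ≤ 8 * R * η := by
        have : 1 ≤ R * η := Nat.one_le_iff_ne_zero.mpr (by positivity)
        have h3 : 8 * R * η = 8 * (R * η) := by ring
        omega
      have h3 : R * 2 ≤ R * (8 * R * η) := Nat.mul_le_mul_left _ h2
      omega
    have hp := pack hF hH hG hTU hind' (k + 1) hkR (by
      intro c hc d hd hcd
      rw [hUT] at hc hd
      obtain ⟨a, ha, rfl⟩ := mem_image.mp hc
      obtain ⟨b, hb, rfl⟩ := mem_image.mp hd
      exact hfar a ha b hb (fun h => hcd (by rw [h])))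
    rw [hCcard, ← hR] at hp
    have hTc : #T ≤ η * #I := (card_le_card hTU).trans hcard
    have h5 : 4 * R * R * #T ≤ 4 * R * R * (η * #I) := Nat.mul_le_mul_left _ hTc
    have h6 : 2 * (4 * R * R * (η * #I)) = k * #I := by rw [hk]; ring
    have h7 : (k + 1) * #I = k * #I + #I := by ring
    -- 2 (k+1) #I ≤ k #I + 4 (k+1)
    have h8 : 2 * ((k + 1) * #I) ≤ k * #I + 4 * (k + 1) := by omega
    have h9 : 4 * (k + 1) ≤ #I * (k + 1) := Nat.mul_le_mul_right _ h4
    have h10 : #I * (k + 1) = k * #I + #I := by ring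
    omega

open Classical in
theorem main1 {F : ∀ n : ℕ, SimpleGraph (Fin n) → Prop} (hF : VMClosed F) {t : ℕ}
    {H : SimpleGraph (Fin t)} (hH : ¬ F t H) {n : ℕ} {G : SimpleGraph (Fin n)}
    (hG : F n G) (η : ℕ)
    (hI : ∀ U : Finset (Fin n), ∃ I ⊆ U, (∀ x ∈ I, ∀ y ∈ I, ¬ G.Adj x y) ∧ #U ≤ η * #I) :
    ∃ l : List (Gate n), Prepares l G ∧ czCount l ≤ 9 * R0 (t ^ 2 + t) ^ 2 * η * n := by
  set R := R0 (t ^ 2 + t) with hR
  obtain ⟨l, h1, h2⟩ := p_BLD n (8 * R ^ 2 * η) G (fun U hU => near hF hH hG η U hU (hI U))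
  refine ⟨l, h1, h2.trans ?_⟩
  rcases Nat.eq_zero_or_pos n with h0 | hn
  · subst h0; simp
  · apply Nat.mul_le_mul_right
    have hη : 1 ≤ η := by
      obtain ⟨I, _, _, h3⟩ := hI univ
      by_contra h
      have : η = 0 := by omega
      rw [this, zero_mul, card_univ, Fintype.card_fin] at h3
      omega
    have hR1 : 1 ≤ R := by rw [hR]; unfold R0; exact Nat.one_le_two_pow
    have h3 : 1 ≤ R ^ 2 * η := Nat.one_le_iff_ne_zero.mpr (by positivity)
    have h4 : 8 * R ^ 2 * η = 8 * (R ^ 2 * η) := by ring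
    have h5 : 9 * R ^ 2 * η = 9 * (R ^ 2 * η) := by ring
    omega

/-- Colourable graphs have large independent sets in every subset. -/
theorem indep_of_colorable {n : ℕ} {G : SimpleGraph (Fin n)} {k : ℕ} (h : G.Colorable k)
    (U : Finset (Fin n)) :
    ∃ I ⊆ U, (∀ x ∈ I, ∀ y ∈ I, ¬ G.Adj x y) ∧ #U ≤ k * #I := by
  obtain ⟨c⟩ := h
  have h1 : ∃ i : Option (Fin k), (∀ j : Fin k, #{x ∈ U | c x = j} ≤
      #{x ∈ U | some (c x) = i}) := by
    by_cases hk : (univ : Finset (Fin k)).Nonempty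
    · obtain ⟨i, _, hi⟩ := exists_max_image univ (fun j : Fin k => #{x ∈ U | c x = j}) hk
      refine ⟨some i, fun j => (hi j (mem_univ _)).trans (le_of_eq ?_)⟩
      simp
    · refine ⟨none, fun j => absurd ⟨j, mem_univ _⟩ hk⟩
  obtain ⟨i, hi⟩ := h1
  refine ⟨U.filter (fun x => some (c x) = i), filter_subset _ _, ?_, ?_⟩
  · intro x hx y hy hxy
    rw [mem_filter] at hx hy
    have : c x = c y := Option.some_injective _ (hx.2.trans hy.2.symm)
    exact c.valid hxy this
  · have h2 : #U = ∑ j : Fin k, #{x ∈ U | c x = j} :=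
      card_eq_sum_card_fiberwise (fun x _ => by simp)
    rw [h2]
    calc ∑ j : Fin k, #{x ∈ U | c x = j} ≤ ∑ _j : Fin k, #{x ∈ U | some (c x) = i} :=
          sum_le_sum (fun j _ => hi j)
      _ = k * #{x ∈ U | some (c x) = i} := by
          rw [sum_const, card_univ, Fintype.card_fin, smul_eq_mul]

end Pool.Agent.H53.CZD
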