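import Pool.Agent.H53.CZ.Targets

namespace Pool.Agent.H53.CZD

open Finset

section
variable {ι : Type} [Fintype ι] [DecidableEq ι]

theorem addself (x : ι → ZMod 2) : x + x = 0 := by
  funext i
  exact CharTwo.add_self_eq_zero (x i)

theorem contr_apply (h : ι → ZMod 2) (t : ι) (x : ι → ZMod 2) :
    contr h t x = x + x t • h := by
  simp [contr]

theorem contr_self (h : ι → ZMod 2) (t : ι) (ht : h t = 1) : contr h t h = 0 := by
  rw [contr_apply, ht, one_smul, addself]

theorem zmod2_ne_zero {a : ZMod 2} (h : a ≠ 0) : a = 1 := by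
  revert h; revert a; decide

theorem exists_coord {h : ι → ZMod 2} (hh : h ≠ 0) : ∃ t, h t = 1 := by
  obtain ⟨t, ht⟩ := Function.ne_iff.mp hh
  exact ⟨t, zmod2_ne_zero ht⟩

theorem ecount_eq_sum (S C : Finset (ι → ZMod 2)) : ecount S C = ∑ x ∈ C, dg S C x := by
  unfold ecount dg
  rw [card_eq_sum_card_fiberwise (f := Prod.fst) (t := C)]
  · apply sum_congr rfl
    intro x hx
    rw [filter_filter]
    apply card_bij (fun p _ => p.2)
    · intro p hp
      simp only [mem_filter, mem_product] at hp ⊢
      obtain ⟨⟨_, h2⟩, h3, h4⟩ := hp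
      subst h4
      exact ⟨h2, h3⟩
    · rintro ⟨p1, p2⟩ hp ⟨r1, r2⟩ hr h
      simp only [mem_filter, mem_product] at hp hr h
      obtain ⟨_, _, h4⟩ := hp
      obtain ⟨_, _, h5⟩ := hr
      subst h; subst h4; subst h5; rfl
    · intro y hy
      simp only [mem_filter, mem_product] at hy ⊢
      exact ⟨(x, y), ⟨⟨hx, hy.1⟩, hy.2, rfl⟩, rfl⟩
  · intro p hp
    simp only [coe_filter, mem_product, Set.mem_ofPred_eq] at hp
    exact hp.1.1

theorem shrink_card_lt (S : Finset (ι → ZMod 2)) (h : ι → ZMod 2) (t : ι) (hS : h ∈ S)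
    (ht : h t = 1) : #(shrink S h t) < #S := by
  unfold shrink
  have h1 : (0 : ι → ZMod 2) ∈ S.image (contr h t) :=
    mem_image.mpr ⟨h, hS, contr_self h t ht⟩
  rw [card_erase_of_mem h1]
  have h2 : #(S.image (contr h t)) ≤ #S := card_image_le
  have h3 : 0 < #(S.image (contr h t)) := card_pos.mpr ⟨0, h1⟩
  omega

theorem rich_of_shrink (hL : LIFT) (S : Finset (ι → ZMod 2)) (h : ι → ZMod 2) (t : ι)
    (hS : h ∈ S) (ht : h t = 1) (q : ℕ) (hr : Rich (shrink S h t) q) : Rich S q := by
  refine hL ι S (contr h t) {h} ?_ ?_ ?_ q hr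
  · intro x hx
    rw [Set.mem_singleton_iff] at hx
    subst hx
    exact hS
  · intro d hd
    rw [Set.mem_singleton_iff] at hd
    subst hd
    exact contr_self d t ht
  · intro x _ hx
    rw [contr_apply] at hx
    have h1 : x = x t • h := by
      have h2 : x + (x t • h + x t • h) = x t • h := by
        rw [← add_assoc, hx, zero_add]
      rwa [addself, add_zero] at h2
    rw [h1]
    exact Submodule.smul_mem _ _ (Submodule.subset_span rfl)

end

theorem pl (hL : LIFT) (hSH : SHC) (hG : GS) (hR : RK) (hGL : GLE) (hD : DR) : PL := by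
  intro ι _ _ q
  have hmain : ∀ N : ℕ, ∀ S C : Finset (ι → ZMod 2), #S + #C = N →
      (0 : ι → ZMod 2) ∉ S → C ⊆ insert 0 S → C.Nonempty → R0 q * #C ≤ ecount S C →
      Rich S q := by
    intro N
    induction N using Nat.strong_induction_on with
    | _ N ih =>
    intro S C hN h0 hCS hC hE
    by_contra hrich
    set R := R0 q with hRdef
    have hR16 : 16 ≤ R := by
      rw [hRdef]; unfold R0
      calc 16 = 2 ^ 4 := by norm_num
        _ ≤ 2 ^ (7 * q ^ 2 + 2 * q + 4) := Nat.pow_le_pow_right (by norm_num) (by omega)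
    -- proper subsets
    have ha : ∀ C1 ⊆ C, C1 ≠ C → C1.Nonempty → ecount S C1 < R * #C1 := by
      intro C1 h1 h2 h3
      by_contra h4
      push Not at h4
      have h5 : #C1 < #C := card_lt_card (h1.ssubset_of_ne h2)
      exact hrich (ih (#S + #C1) (by omega) S C1 rfl h0 (h1.trans hCS) h3 h4)
    -- contractions
    have hb : ∀ h ∈ S, ∀ t, h t = 1 →
        ecount (shrink S h t) (C.image (contr h t)) < R * #(C.image (contr h t)) := by
      intro h hh t ht
      by_contra h4
      push Not at h4
      apply hrich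
      apply rich_of_shrink hL S h t hh ht
      have h5 : #(shrink S h t) < #S := shrink_card_lt S h t hh ht
      have h6 : #(C.image (contr h t)) ≤ #C := card_image_le
      refine ih (#(shrink S h t) + #(C.image (contr h t))) (by omega) _ _ rfl ?_ ?_ ?_ h4
      · unfold shrink; exact notMem_erase _ _
      · intro y hy
        obtain ⟨c, hc, rfl⟩ := mem_image.mp hy
        rw [mem_insert]
        by_cases hz : contr h t c = 0
        · exact Or.inl hz
        · right
          unfold shrink
          rw [mem_erase]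
          refine ⟨hz, mem_image.mpr ⟨c, ?_, rfl⟩⟩
          rcases mem_insert.mp (hCS hc) with h7 | h7
          · exfalso; apply hz; rw [h7, map_zero]
          · exact h7
      · exact hC.image _
    -- inequality for each h
    have hc : ∀ h ∈ S, R * #{x ∈ C | x + h ∈ C} ≤
        2 * #{x ∈ C | x + h ∈ C} + 2 * ∑ x ∈ C with x + h ∈ C, gd S C x h := by
      intro h hh
      have hne : h ≠ 0 := fun h' => h0 (h' ▸ hh)
      obtain ⟨t, ht⟩ := exists_coord hne
      obtain ⟨h1, h2⟩ := hSH ι S C h t hh ht h0
      have h3 := hb h hh t ht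
      set a := #(C.image (contr h t))
      set τ := #{x ∈ C | x + h ∈ C}
      set σ := ∑ x ∈ C with x + h ∈ C, gd S C x h
      set e' := ecount (shrink S h t) (C.image (contr h t))
      have h4 : 2 * (R * #C) = 2 * (R * a) + R * τ := by
        have : R * (2 * a + τ) = R * (2 * #C) := by rw [h1]
        nlinarith
      nlinarith
    have hsum : R * ecount S C ≤ 2 * ecount S C + 2 * good S C := by
      obtain ⟨g1, g2⟩ := hG ι S C
      have h1 := sum_le_sum hc
      rw [← mul_sum, sum_add_distrib, ← mul_sum, ← mul_sum, g1, g2] at h1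
      exact h1
    -- degeneracy
    have hCbig : R < #C := by
      have h1 : ecount S C ≤ #C * (#C - 1) := by
        rw [ecount_eq_sum]
        calc ∑ x ∈ C, dg S C x ≤ ∑ x ∈ C, (#C - 1) := by
              apply sum_le_sum
              intro x hx
              unfold dg
              have h2 : ({y ∈ C | x + y ∈ S} : Finset (ι → ZMod 2)) ⊆ C.erase x := by
                intro y hy
                rw [mem_filter] at hy
                rw [mem_erase]
                refine ⟨?_, hy.1⟩
                rintro rfl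
                rw [addself] at hy
                exact h0 hy.2
              calc _ ≤ #(C.erase x) := card_le_card h2
                _ = #C - 1 := card_erase_of_mem hx
          _ = #C * (#C - 1) := by rw [sum_const, smul_eq_mul]
      have h2 : R * #C ≤ #C * (#C - 1) := hE.trans h1
      have h3 : 0 < #C := card_pos.mpr hC
      have h4 : R ≤ #C - 1 := by
        rw [mul_comm] at h2
        exact Nat.le_of_mul_le_mul_left h2 h3
      omega
    have hdeg : ∀ C1 ⊆ C, C1.Nonempty → ∃ x ∈ C1, dg S C1 x ≤ R := by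
      intro C1 h1 h3
      by_cases h2 : C1 = C
      · subst h2
        obtain ⟨x, hx⟩ := h3
        have h4 : (C1.erase x).Nonempty := by
          rw [← card_pos, card_erase_of_mem hx]
          omega
        have h5 := ha (C1.erase x) (erase_subset _ _) (by
          intro h6
          have := card_erase_of_mem hx
          rw [h6] at this
          have := card_pos.mpr ⟨x, hx⟩
          omega) h4
        rw [ecount_eq_sum] at h5
        have h6 : ∃ y ∈ C1.erase x, dg S (C1.erase x) y < R := by
          by_contra h7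
          push Not at h7
          have h8 : #(C1.erase x) • R ≤ ∑ y ∈ C1.erase x, dg S (C1.erase x) y :=
            card_nsmul_le_sum _ _ _ h7
          rw [smul_eq_mul, mul_comm] at h8
          omega
        obtain ⟨y, hy, hy2⟩ := h6
        refine ⟨y, mem_of_mem_erase hy, ?_⟩
        have h9 : dg S C1 y ≤ dg S (C1.erase x) y + 1 := by
          unfold dg
          rw [filter_erase]
          have h10 : #({z ∈ C1 | y + z ∈ S} : Finset (ι → ZMod 2)) - 1 ≤
              #(({z ∈ C1 | y + z ∈ S} : Finset (ι → ZMod 2)).erase x) := pred_card_le_card_erase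
          omega
        omega
      · have h5 := ha C1 h1 h2 h3
        rw [ecount_eq_sum] at h5
        by_contra h7
        push Not at h7
        have h7' : ∀ x ∈ C1, R ≤ dg S C1 x := fun x hx => (h7 x hx).le
        have h8 : #C1 • R ≤ ∑ y ∈ C1, dg S C1 y := card_nsmul_le_sum _ _ _ h7'
        rw [smul_eq_mul, mul_comm] at h8
        omega
    obtain ⟨r, hr1, hr2⟩ := hR ι S C R hdeg
    have hgood := hGL ι S C r hr1 h0
    set f : (ι → ZMod 2) → ℕ := fun x =>
      (#{p ∈ later S C r x ×ˢ later S C r x | p.1 + p.2 ∈ S} +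
       #{p ∈ later S C r x ×ˢ later S C r x | p.1 ≠ p.2 ∧ x + p.1 + p.2 ∈ C}) with hf
    have hx : ∃ x ∈ C, (R - 2) * R ≤ 8 * f x := by
      by_contra h7
      push Not at h7
      have h8 : ∑ x ∈ C, 8 * f x < ∑ x ∈ C, (R - 2) * R := sum_lt_sum_of_nonempty hC h7
      rw [sum_const, smul_eq_mul, ← mul_sum] at h8
      have hgood' : good S C ≤ 4 * ∑ x ∈ C, f x := hgood
      have h9 : (R - 2) * ecount S C ≤ 2 * good S C := by
        rw [Nat.sub_mul]; omega
      have h10 : (R - 2) * (R * #C) ≤ (R - 2) * ecount S C := Nat.mul_le_mul_left _ hE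
      have h11 : (R - 2) * (R * #C) = #C * ((R - 2) * R) := by ring
      omega
    obtain ⟨x, hxC, hx⟩ := hx
    have hNcard := hr2 x hxC
    set Nn := later S C r x with hNn
    have hR2 : 7 * (R * R) ≤ 8 * ((R - 2) * R) := by
      have : 7 * R ≤ 8 * (R - 2) := by omega
      calc 7 * (R * R) = (7 * R) * R := by ring
        _ ≤ (8 * (R - 2)) * R := Nat.mul_le_mul_right _ this
        _ = 8 * ((R - 2) * R) := by ring
    have hNN : #Nn ^ 2 ≤ R * R := by rw [pow_two]; exact Nat.mul_le_mul hNcard hNcard
    have hprod : #(Nn ×ˢ Nn) = #Nn ^ 2 := by rw [card_product, pow_two]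
    have ht1 : #{p ∈ Nn ×ˢ Nn | p.1 + p.2 ∈ S} ≤ #Nn ^ 2 := by
      rw [← hprod]; exact card_filter_le _ _
    have ht2 : #{p ∈ Nn ×ˢ Nn | p.1 ≠ p.2 ∧ x + p.1 + p.2 ∈ C} ≤ #Nn ^ 2 := by
      rw [← hprod]; exact card_filter_le _ _
    have hfx : f x = #{p ∈ Nn ×ˢ Nn | p.1 + p.2 ∈ S} +
       #{p ∈ Nn ×ˢ Nn | p.1 ≠ p.2 ∧ x + p.1 + p.2 ∈ C} := rfl
    have hbig : 2 ^ (7 * q ^ 2 + 2 * q + 1) < #Nn := by
      by_contra h7
      push Not at h7
      have h8 : R = 8 * 2 ^ (7 * q ^ 2 + 2 * q + 1) := by
        rw [hRdef]; unfold R0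
        rw [show 7 * q ^ 2 + 2 * q + 4 = 3 + (7 * q ^ 2 + 2 * q + 1) by ring, pow_add]
        norm_num
      have h9 : 8 * #Nn ≤ R := by omega
      have h10 : 64 * #Nn ^ 2 ≤ R * R := by
        calc 64 * #Nn ^ 2 = (8 * #Nn) * (8 * #Nn) := by ring
          _ ≤ R * R := Nat.mul_le_mul h9 h9
      have h11 : 0 < R * R := by positivity
      omega
    refine hrich (hD ι S C Nn x q h0 hCS hxC ?_ ?_ hbig ?_)
    · rw [hNn]; unfold later; exact filter_subset _ _
    · intro y hy
      rw [hNn] at hy; unfold later at hy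
      exact (mem_filter.mp hy).2.1
    · by_contra h7
      push Not at h7
      omega
  intro S C h0 h1 h2 h3
  exact hmain _ S C rfl h0 h1 h2 h3

end Pool.Agent.H53.CZD
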