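import Pool.Agent.H53.CZ.Defs

/-!
# Targets (statements as propositions)
-/

namespace Pool.Agent.H53.CZD

open Finset

/-! ## Vectors -/

/-- LIFT -/
def LIFT : Prop := ∀ (ι : Type) [Fintype ι] [DecidableEq ι] (S : Finset (ι → ZMod 2))
    (p : (ι → ZMod 2) →ₗ[ZMod 2] (ι → ZMod 2)) (D0 : Set (ι → ZMod 2)),
    D0 ⊆ ↑S → (∀ d ∈ D0, p d = 0) →
    (∀ x ∈ Submodule.span (ZMod 2) (S : Set (ι → ZMod 2)), p x = 0 →
      x ∈ Submodule.span (ZMod 2) D0) →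
    ∀ q : ℕ, Rich ((S.image p).erase 0) q → Rich S q

/-- SHC -/
def SHC : Prop := ∀ (ι : Type) [Fintype ι] [DecidableEq ι] (S C : Finset (ι → ZMod 2))
    (h : ι → ZMod 2) (t : ι), h ∈ S → h t = 1 → (0 : ι → ZMod 2) ∉ S →
    2 * #(C.image (contr h t)) + #{x ∈ C | x + h ∈ C} = 2 * #C ∧
    ecount S C ≤ ecount (shrink S h t) (C.image (contr h t)) + #{x ∈ C | x + h ∈ C} +
      ∑ x ∈ C with x + h ∈ C, gd S C x h

/-- GS -/
def GS : Prop := ∀ (ι : Type) [Fintype ι] [DecidableEq ι] (S C : Finset (ι → ZMod 2)),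
    (∑ h ∈ S, #{x ∈ C | x + h ∈ C} = ecount S C) ∧
    (∑ h ∈ S, ∑ x ∈ C with x + h ∈ C, gd S C x h = good S C)

/-- RK -/
def RK : Prop := ∀ (ι : Type) [Fintype ι] [DecidableEq ι] (S C : Finset (ι → ZMod 2)) (D : ℕ),
    (∀ C1 ⊆ C, C1.Nonempty → ∃ x ∈ C1, dg S C1 x ≤ D) →
    ∃ r : (ι → ZMod 2) → ℕ, (∀ x ∈ C, ∀ y ∈ C, r x = r y → x = y) ∧
      ∀ x ∈ C, #(later S C r x) ≤ D

/-- GLE -/
def GLE : Prop := ∀ (ι : Type) [Fintype ι] [DecidableEq ι] (S C : Finset (ι → ZMod 2))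
    (r : (ι → ZMod 2) → ℕ), (∀ x ∈ C, ∀ y ∈ C, r x = r y → x = y) → (0 : ι → ZMod 2) ∉ S →
    good S C ≤ 4 * ∑ x ∈ C,
      (#{p ∈ later S C r x ×ˢ later S C r x | p.1 + p.2 ∈ S} +
       #{p ∈ later S C r x ×ˢ later S C r x | p.1 ≠ p.2 ∧ x + p.1 + p.2 ∈ C})

/-- KST -/
def KST : Prop := ∀ (α : Type) [DecidableEq α] (N : Finset α) (Rel : α → α → Prop)
    [DecidableRel Rel] (q : ℕ),
    #N ^ 2 ≤ 128 * #{p ∈ N ×ˢ N | Rel p.1 p.2} →
    #N ^ (2 * q) ≤ 128 ^ (q ^ 2) *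
      #{p ∈ (Fintype.piFinset fun _ : Fin q => N) ×ˢ (Fintype.piFinset fun _ : Fin q => N) |
        ∀ i j, Rel (p.1 i) (p.2 j)}

open Classical in
/-- DEP -/
def DEP : Prop := ∀ (ι : Type) [Fintype ι] [DecidableEq ι] (N : Finset (ι → ZMod 2))
    (v : ι → ZMod 2) (q : ℕ),
    #{p ∈ (Fintype.piFinset fun _ : Fin q => N) ×ˢ (Fintype.piFinset fun _ : Fin q => N) |
        ∃ x y : Fin q → ZMod 2, ¬ (x = 0 ∧ y = 0) ∧
          ((∑ i, x i • p.1 i) + (∑ j, y j • p.2 j) = 0 ∨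
           (∑ i, x i • p.1 i) + (∑ j, y j • p.2 j) = v)} ≤ 2 ^ (2 * q + 1) * #N ^ (2 * q - 1)

/-- DR (uses KST, DEP) -/
def DR : Prop := ∀ (ι : Type) [Fintype ι] [DecidableEq ι] (S C N : Finset (ι → ZMod 2))
    (x : ι → ZMod 2) (q : ℕ),
    (0 : ι → ZMod 2) ∉ S → C ⊆ insert 0 S → x ∈ C → N ⊆ C → (∀ y ∈ N, x + y ∈ S) →
    2 ^ (7 * q ^ 2 + 2 * q + 1) < #N →
    (#N ^ 2 ≤ 128 * #{p ∈ N ×ˢ N | p.1 + p.2 ∈ S} ∨
     #N ^ 2 ≤ 128 * #{p ∈ N ×ˢ N | p.1 ≠ p.2 ∧ x + p.1 + p.2 ∈ C}) →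
    Rich S q

/-- PL (uses LIFT, SHC, GS, RK, GLE, DR) -/
def PL : Prop := ∀ (ι : Type) [Fintype ι] [DecidableEq ι] (q : ℕ) (S C : Finset (ι → ZMod 2)),
    (0 : ι → ZMod 2) ∉ S → C ⊆ insert 0 S → C.Nonempty → R0 q * #C ≤ ecount S C → Rich S q

/-- SHR -/
def SHR : Prop := ∀ (ι : Type) [Fintype ι] [DecidableEq ι] (S : Finset (ι → ZMod 2))
    (h : ι → ZMod 2) (t : ι), h ∈ S → h t = 1 → (0 : ι → ZMod 2) ∉ S →
    Module.finrank (ZMod 2)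
      (Submodule.span (ZMod 2) ((shrink S h t : Finset (ι → ZMod 2)) : Set (ι → ZMod 2))) + 1 ≤
      Module.finrank (ZMod 2) (Submodule.span (ZMod 2) (S : Set (ι → ZMod 2))) ∧
    2 * #S ≤ 2 * #(shrink S h t) + dg S S h + 2

/-- LG (uses PL, SHR, LIFT) -/
def LG : Prop := ∀ (ι : Type) [Fintype ι] [DecidableEq ι] (q : ℕ) (S : Finset (ι → ZMod 2)),
    (0 : ι → ZMod 2) ∉ S → ¬ Rich S q →
    #S ≤ R0 q * Module.finrank (ZMod 2) (Submodule.span (ZMod 2) (S : Set (ι → ZMod 2)))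

/-! ## Packing -/

variable {ι : Type} [Fintype ι] [DecidableEq ι]

/-- Restriction to the coordinates in `T`. -/
def restr (T : Finset ι) : (ι → ZMod 2) →ₗ[ZMod 2] (ι → ZMod 2) where
  toFun x := fun i => if i ∈ T then x i else 0
  map_add' x y := by funext i; by_cases h : i ∈ T <;> simp [h]
  map_smul' c x := by funext i; by_cases h : i ∈ T <;> simp [h]

/-- Traces of `C` on `T`. -/
def tr (C : Finset (ι → ZMod 2)) (T : Finset ι) : Finset (ι → ZMod 2) := C.image (restr T)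

/-- Number of elements of `C` with trace `u` on `T`. -/
def wt (C : Finset (ι → ZMod 2)) (T : Finset ι) (u : ι → ZMod 2) : ℕ := #{c ∈ C | restr T c = u}

/-- Unit vectors of `T`. -/
def units (T : Finset ι) : Finset (ι → ZMod 2) := T.image (fun t => Pi.single t 1)

/-- Weight of the unit edges of direction `t`. -/
def edgeWt (C : Finset (ι → ZMod 2)) (T : Finset ι) (t : ι) : ℕ :=
  ∑ u ∈ tr C T with u + Pi.single t 1 ∈ tr C T,
    min (wt C T u) (wt C T (u + Pi.single t 1))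

/-- LC: layer cake -/
def LC : Prop := ∀ (ι : Type) [Fintype ι] [DecidableEq ι] (C : Finset (ι → ZMod 2))
    (T : Finset ι) (R : ℕ),
    (∀ Y ⊆ tr C T, ecount (units T) Y ≤ R * #Y) →
    ∑ t ∈ T, edgeWt C T t ≤ R * #C

/-- SPL: splitting of the classes -/
def SPL : Prop := ∀ (ι : Type) [Fintype ι] [DecidableEq ι] (C : Finset (ι → ZMod 2))
    (T A : Finset ι) (δ : ℕ), A ⊆ T →
    (∀ c ∈ C, ∀ d ∈ C, c ≠ d → δ ≤ #{t ∈ T | c t ≠ d t}) →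
    δ * #C ≤ δ * #(tr C A) + ∑ t ∈ T \ A, edgeWt C (insert t A) t

/-- DC: double counting -/
def DC : Prop := ∀ (ι : Type) [Fintype ι] [DecidableEq ι] (T : Finset ι) (s : ℕ)
    (g : Finset ι → ι → ℕ),
    ∑ A ∈ powersetCard s T, ∑ t ∈ T \ A, g (insert t A) t =
      ∑ B ∈ powersetCard (s + 1) T, ∑ t ∈ B, g B t

/-- HA: packing lemma (uses LC, SPL, DC) -/
def HA : Prop := ∀ (ι : Type) [Fintype ι] [DecidableEq ι] (C : Finset (ι → ZMod 2))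
    (T : Finset ι) (L R δ : ℕ), 1 ≤ R → 2 * R ≤ δ →
    (∀ A ⊆ T, #(tr C A) ≤ L * #A + 1) →
    (∀ A ⊆ T, ∀ Y ⊆ tr C A, ecount (units A) Y ≤ R * #Y) →
    (∀ c ∈ C, ∀ d ∈ C, c ≠ d → δ ≤ #{t ∈ T | c t ≠ d t}) →
    δ * #C ≤ 4 * L * R * #T + 2 * δ

/-! ## Graphs and vectors -/

open Classical in
/-- `P ⊆ U` is a basis side: `U \ P` is independent and the vector of `x ∈ U \ P` is the sum of the
vectors of its neighbours in `P`. -/
def Rep {V : Type} (G : SimpleGraph V) (U P : Finset V) (vec : V → (ι → ZMod 2)) : Prop :=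
  P ⊆ U ∧ (∀ x ∈ U, x ∉ P → ∀ y ∈ U, y ∉ P → ¬ G.Adj x y) ∧
    ∀ x ∈ U, x ∉ P → vec x = ∑ p ∈ P with G.Adj x p, vec p

open Classical in
/-- EX: exchange by a pivot -/
def EX : Prop := ∀ (ι V : Type) [Fintype ι] [DecidableEq ι] (G : SimpleGraph V)
    (U P : Finset V) (vec : V → (ι → ZMod 2)) (x p : V), Rep G U P vec → x ∈ U → x ∉ P →
    p ∈ P → G.Adj x p → Rep (lc (lc (lc G x) p) x) U (insert x (P.erase p)) vec

/-- REA: reach every basis (uses EX) -/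
def REA : Prop := ∀ (ι V : Type) [Fintype ι] [DecidableEq ι] (G : SimpleGraph V)
    (U P Q : Finset V) (vec : V → (ι → ZMod 2)), Rep G U P vec → Q ⊆ U → #Q = #P →
    LinearIndepOn (ZMod 2) vec (Q : Set V) → ∃ G', LE G G' ∧ Rep G' U Q vec

/-- CHO: choice of the basis given by `Rich` -/
def CHO : Prop := ∀ (V : Type) [Fintype V] [DecidableEq V] (U T : Finset V)
    (vec : V → (V → ZMod 2)) (q : ℕ), T ⊆ U → (∀ t ∈ T, vec t = Pi.single t 1) →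
    (∀ u ∈ U, ∀ i, i ∉ T → vec u i = 0) → Rich ((U.image vec).erase 0) q →
    ∃ (Q : Finset V) (α β : Fin q → V) (ζ : Fin q → Fin q → V),
      Q ⊆ U ∧ #Q = #T ∧ LinearIndepOn (ZMod 2) vec (Q : Set V) ∧
      (∀ i, α i ∈ Q) ∧ (∀ j, β j ∈ Q) ∧ (∀ i j, ζ i j ∈ U ∧ ζ i j ∉ Q) ∧
      Function.Injective α ∧ Function.Injective β ∧ (∀ i j, α i ≠ β j) ∧
      (∀ i j i' j', ζ i j = ζ i' j' → i = i' ∧ j = j') ∧
      ∀ (i j : Fin q) (N : Finset V), N ⊆ Q → ∑ p ∈ N, vec p = vec (ζ i j) →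
        ∀ k, (α k ∈ N ↔ k = i) ∧ (β k ∈ N ↔ k = j)

/-- UNI: universality of the subdivided complete bipartite graph with noise on the basis side -/
def UNI : Prop := ∀ (V : Type) (t m : ℕ) (G : SimpleGraph V) (α : Fin t → V) (β : Fin m → V)
    (ζ : Fin t → Fin m → V), Function.Injective α → Function.Injective β →
    (∀ i j i' j', ζ i j = ζ i' j' → i = i' ∧ j = j') →
    (∀ i j, α i ≠ β j) → (∀ i j k, ζ i j ≠ α k) → (∀ i j k, ζ i j ≠ β k) →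
    (∀ i j k, G.Adj (ζ i j) (α k) ↔ k = i) → (∀ i j k, G.Adj (ζ i j) (β k) ↔ k = j) →
    (∀ i j i' j', ¬ G.Adj (ζ i j) (ζ i' j')) →
    ∀ X : Finset (Sym2 (Fin t)), #X ≤ m → (∀ e ∈ X, ¬ e.IsDiag) →
    ∃ G', LE G G' ∧ ∀ i k : Fin t, i ≠ k →
      (G'.Adj (α i) (α k) ↔ ¬ (G.Adj (α i) (α k) ↔ s(i, k) ∈ X))

/-- CM: closure under injective comap -/
def CM : Prop := ∀ F : (∀ n : ℕ, SimpleGraph (Fin n) → Prop), VMClosed F →
    ∀ (m n : ℕ) (G : SimpleGraph (Fin n)) (f : Fin m → Fin n), Function.Injective f → F n G →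
    F m (G.comap f)

open Classical in
/-- The vectors of a graph: unit vectors on `T`, neighbourhoods in `T` elsewhere. -/
noncomputable def gvec {n : ℕ} (G : SimpleGraph (Fin n)) (T : Finset (Fin n)) :
    Fin n → (Fin n → ZMod 2) := fun v => if v ∈ T then Pi.single v 1 else
      fun i => if i ∈ T ∧ G.Adj v i then 1 else 0

/-- NR: no rich configuration (uses REA, CHO, UNI, CM) -/
def NR : Prop := ∀ F : (∀ n : ℕ, SimpleGraph (Fin n) → Prop), VMClosed F →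
    ∀ (t : ℕ) (H : SimpleGraph (Fin t)), ¬ F t H →
    ∀ (n : ℕ) (G : SimpleGraph (Fin n)) (U T : Finset (Fin n)), F n G → T ⊆ U →
    (∀ x ∈ U, x ∉ T → ∀ y ∈ U, y ∉ T → ¬ G.Adj x y) →
    ¬ Rich ((U.image (gvec G T)).erase 0) (t ^ 2 + t)

/-! ## Circuits -/

/-- TOG: a `CZ` gate toggles an edge -/
def TOG : Prop := ∀ (n : ℕ) (G G' : SimpleGraph (Fin n)) (i j : Fin n) (h : i ≠ j),
    (∀ a b, G'.Adj a b ↔ (a ≠ b ∧ ¬ (G.Adj a b ↔ (a = i ∧ b = j) ∨ (a = j ∧ b = i)))) →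
    (Gate.CZ i j h).apply (graphState G) = graphState G'

/-- TWI: copying the neighbourhood of `a` to an isolated vertex `b` costs one `CZ` -/
def TWI : Prop := ∀ (n : ℕ) (G G' : SimpleGraph (Fin n)) (a b : Fin n) (h : a ≠ b),
    (∀ x, ¬ G.Adj b x) →
    (∀ x y, G'.Adj x y ↔ (G.Adj x y ∨ (x = b ∧ G.Adj a y) ∨ (y = b ∧ G.Adj a x))) →
    run [Gate.H a, Gate.CZ a b h, Gate.H a] (graphState G) = graphState G'

/-- PLUS: the edgeless graph state -/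
def PLUS : Prop := ∀ n : ℕ, ∃ l : List (Gate n), czCount l = 0 ∧
    run l (zeroState n) = graphState (⊥ : SimpleGraph (Fin n))

open Classical in
/-- BLD: building a graph from near twins (uses TOG, TWI, PLUS) -/
def BLD : Prop := ∀ (n k : ℕ) (G : SimpleGraph (Fin n)),
    (∀ U : Finset (Fin n), U.Nonempty → ∃ b ∈ U,
      #{x ∈ U | G.Adj b x} ≤ k ∨
      ∃ a ∈ U, a ≠ b ∧ ¬ G.Adj a b ∧ #{x ∈ U | ¬ (G.Adj a x ↔ G.Adj b x)} ≤ k) →
    ∃ l : List (Gate n), Prepares l G ∧ czCount l ≤ (k + 1) * n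

end Pool.Agent.H53.CZD
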